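import Mathlib

set_option autoImplicit false

open Cardinal Set Filter

namespace Pool.Agent.H.MP_2712b7_lc

/-- the dominating number -/
noncomputable def dd : Cardinal.{0} :=
  sInf {c | ∃ D : Set (ℕ → ℕ), (∀ g : ℕ → ℕ, ∃ f ∈ D, ∀ᶠ n in atTop, g n ≤ f n) ∧ #D = c}

/-- the ultrafilter number -/
noncomputable def uu : Cardinal.{0} :=
  sInf {c | ∃ (U : Ultrafilter ℕ) (B : Set (Set ℕ)), (U : Filter ℕ) ≤ cofinite ∧
    (∀ b ∈ B, b ∈ U) ∧ (∀ A ∈ U, ∃ b ∈ B, b ⊆ A) ∧ #B = c}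

/-- the strong polarized relation for l and omega with two colours -/
def Pol (l : Cardinal.{0}) : Prop := ∀ c : l.ord.ToType → ℕ → Bool,
  ∃ (A : Set l.ord.ToType) (B : Set ℕ) (i : Bool), #A = l ∧ B.Infinite ∧ ∀ a ∈ A, ∀ n ∈ B, c a n = i

lemma nd {ι : Type} (h : #ι < dd) (f : ι → ℕ → ℕ) : ∃ g : ℕ → ℕ, StrictMono g ∧
    ∀ i, ∃ᶠ n in atTop, f i n < g n := by
  obtain ⟨g, k⟩ : ∃ g : ℕ → ℕ, ∀ i, ¬ ∀ᶠ n in atTop, g n ≤ f i n := by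
    by_contra! k
    exact (mk_range_le.trans_lt h).not_ge (csInf_le' ⟨range f, fun g => by simpa using k g, rfl⟩)
  refine ⟨fun n => ∑ j ∈ Finset.range (n + 1), (g j + 1), strictMono_nat_of_lt_succ fun n => ?_,
    fun i => (not_eventually.1 (k i)).mono fun n a => ?_⟩
  · rw [Finset.sum_range_succ _ (n + 1)]; omega
  · simp only [Finset.sum_range_succ]; omega

lemma d0 : ∃ D : Set (ℕ → ℕ), (∀ g : ℕ → ℕ, ∃ f ∈ D, ∀ᶠ n in atTop, g n ≤ f n) ∧ #D = dd :=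
  csInf_mem (s := {c | ∃ D : Set (ℕ → ℕ), (∀ g : ℕ → ℕ, ∃ f ∈ D, ∀ᶠ n in atTop, g n ≤ f n) ∧
    #D = c}) ⟨_, Set.univ, fun g => ⟨g, trivial, .of_forall fun _ => le_rfl⟩, rfl⟩

lemma d1 : ℵ₀ < dd := by
  obtain ⟨D, h, e⟩ := d0
  refine e ▸ not_le.1 fun c => ?_
  obtain ⟨f, hf⟩ := ((le_aleph0_iff_set_countable.1 c).insert 0).exists_eq_range (insert_nonempty _ _)
  obtain ⟨g, a, b⟩ := h fun n => (Finset.range (n + 1)).sup (f · n) + 1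
  obtain ⟨k, rfl⟩ := hf.le (.inr a)
  obtain ⟨n, c, d⟩ := (b.and (eventually_ge_atTop k)).exists
  exact (Finset.le_sup (f := (f · n)) (Finset.mem_range.2 (Nat.lt_succ_of_le d))).not_gt c

lemma d2 : ∃ f : dd.ord.ToType → ℕ → ℕ, ∀ g : ℕ → ℕ, ∃ a, ∀ᶠ n in atTop, g n ≤ f a n := by
  obtain ⟨D, h, e⟩ := d0
  obtain ⟨e⟩ := Cardinal.eq.1 (e.trans (mk_ord_toType _).symm)
  exact ⟨fun a => (e.symm a).1, fun g => let ⟨f, a, b⟩ := h g; ⟨e ⟨f, a⟩, by simpa using b⟩⟩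

lemma d3 (a : dd.ord.ToType) : #(Iic a) < dd := by
  simpa using mk_Iic_lt a (by simp) (by simpa using d1.le)

lemma pt {ι : Type} (h : #ι < dd) (g : ι → ℕ → ℕ) : ∃ e : ℕ → ℕ, Tendsto e atTop atTop ∧
    ∀ i, ∃ᶠ k in atTop, ∃ n, k ≤ n ∧ ∀ m, n ≤ m → m < g i n → e m = k := by
  let G := fun i n => n + ∑ j ∈ Finset.range (n + 1), g i j
  have g1 : ∀ i, Monotone (G i) := fun i => monotone_nat_of_le_succ fun n => by
    simp only [G, Finset.sum_range_succ _ (n + 1)]; omega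
  obtain ⟨a, a1, a2⟩ := nd (ι := ι × ℕ) (by simpa using mul_lt_of_lt d1.le h d1)
    fun x k => (G x.1)^[k] x.2
  have e1 : ∀ n, n ∈ {n | ∃ k, n < a (k + 1)} := fun n => ⟨n, a1.le_apply⟩
  refine ⟨fun n => Nat.find (e1 n), tendsto_atTop_atTop.2 fun m => ⟨a m, fun n b =>
    Nat.lt_succ_iff.1 (a1.lt_iff_lt.1 (b.trans_lt (Nat.find_spec (e1 n))))⟩, fun i => ?_⟩
  have : ∃ᶠ k in atTop, g i (a k) ≤ a (k + 1) := fun b => by
    obtain ⟨m, b⟩ := eventually_atTop.1 b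
    obtain ⟨k, c, d⟩ := ((a2 (i, a m)).and_eventually (eventually_ge_atTop m)).exists
    refine c.not_ge ?_
    clear c
    induction d with
    | refl => exact Function.id_le_iterate_of_id_le (fun n => Nat.le_add_right _ _) m _
    | step d j =>
      rw [Function.iterate_succ_apply']
      refine le_trans ?_ (g1 i j)
      have := b _ d
      simp only [G, Finset.sum_range_succ, Nat.succ_eq_add_one]
      omega
  exact this.mono fun k b => ⟨a k, a1.le_apply, fun m c d => (Nat.find_eq_iff _).2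
    ⟨d.trans_le b, fun j f => not_lt.2 ((a1.monotone f).trans c)⟩⟩

/-- fewer than d infinite sets can be split -/
def Sp : Prop := ∀ R : Set (Set ℕ), #R < dd → (∀ b ∈ R, b.Infinite) →
  ∃ X, ∀ b ∈ R, (b ∩ X).Infinite ∧ (b \ X).Infinite

lemma neg (h : Sp) : ¬ Pol dd := by
  classical
  obtain ⟨f, hf⟩ := d2
  choose e e1 e2 using fun a : dd.ord.ToType => pt (d3 a) fun b => f b.1
  choose X hX using fun a : dd.ord.ToType => h (range fun b : Iic a => {k | ∃ n, k ≤ n ∧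
    ∀ m, n ≤ m → m < f b n → e a m = k}) (mk_range_le.trans_lt (d3 a)) (by
      rintro _ ⟨b, rfl⟩; exact Nat.frequently_atTop_iff_infinite.1 (e2 a b))
  intro k
  obtain ⟨A, B, i, a1, b1, c⟩ := k fun a n => decide (e a n ∈ X a)
  choose x x1 x2 using fun n => b1.exists_gt n
  obtain ⟨b, hb⟩ := hf fun n => x n + 1
  obtain ⟨N, hb⟩ := eventually_atTop.1 hb
  obtain ⟨a, a2, a3⟩ : ∃ a ∈ A, b ≤ a := by
    by_contra! k
    exact (d3 b).not_ge (a1.ge.trans (mk_le_mk_of_subset fun a c => (k a c).le))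
  obtain ⟨k, ⟨⟨n, k1, k2⟩, k3⟩, k4⟩ := (hX a _ ⟨⟨b, a3⟩, rfl⟩).1.exists_gt N
  obtain ⟨l, ⟨⟨m, l1, l2⟩, l3⟩, l4⟩ := (hX a _ ⟨⟨b, a3⟩, rfl⟩).2.exists_gt N
  have := (c a a2 _ (x1 n)).trans (c a a2 _ (x1 m)).symm
  simp [k2 _ (x2 n).le (hb n (by omega)), l2 _ (x2 m).le (hb m (by omega)), k3, l3] at this

lemma ub (h : ¬ Sp) : ∃ (U : Ultrafilter ℕ) (B : Set (Set ℕ)), (U : Filter ℕ) ≤ cofinite ∧
    (∀ b ∈ B, b ∈ U) ∧ (∀ A ∈ U, ∃ b ∈ B, b ⊆ A) ∧ #B < dd := by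
  classical
  simp only [Sp, not_forall, not_exists, exists_prop, not_and_or, not_infinite] at h
  obtain ⟨R, r1, r2, r3⟩ := h
  choose x x1 x2 using fun (b : R) n => (r2 b b.2).exists_gt n
  obtain ⟨e, e1, e2⟩ := pt (ι := Finset R) ((mk_le_of_surjective List.toFinset_surjective).trans_lt
    ((mk_list_le_max _).trans_lt (max_lt d1 r1)))
    fun s n => s.sup (x · n) + 1
  have : (cofinite ⊓ ⨅ b : R, 𝓟 (e '' b)).NeBot := by
    refine forall_mem_nonempty_iff_neBot.1 fun B hB => ?_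
    obtain ⟨B, b1, D, d1, rfl⟩ := mem_inf_iff.1 hB
    obtain ⟨t, ht⟩ := (mem_iInf_finite _).1 d1
    rw [iInf_principal_finset, mem_principal] at ht
    obtain ⟨k, ⟨n, -, a⟩, b⟩ := ((e2 t).and_eventually (Nat.cofinite_eq_atTop ▸ b1)).exists
    exact ⟨k, b, ht (mem_iInter₂.2 fun b c => ⟨_, x1 b n, a _ (x2 b n).le
      (Nat.lt_succ_of_le (Finset.le_sup (f := (x · n)) c))⟩)⟩
  let U := Ultrafilter.of (cofinite ⊓ ⨅ b : R, 𝓟 (e '' b))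
  have u1 : (U : Filter ℕ) ≤ atTop := Nat.cofinite_eq_atTop ▸ (Ultrafilter.of_le _).trans inf_le_left
  have u2 : ∀ (b : R) n, e '' b ∩ Ici n ∈ U := fun b n => inter_mem (Ultrafilter.of_le _
    (mem_inf_of_right (mem_iInf_of_mem b (mem_principal_self _)))) (u1 (Ici_mem_atTop n))
  have u3 : ∀ (b : R) A, (b.1 \ e ⁻¹' A).Finite → ∃ n, e '' b ∩ Ici n ⊆ A := fun b A a => by
    obtain ⟨n, c⟩ := (a.image e).bddAbove
    refine ⟨n + 1, ?_⟩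
    rintro _ ⟨⟨m, d, rfl⟩, f⟩
    exact not_not.1 fun g => (c ⟨m, ⟨d, g⟩, rfl⟩).not_gt f
  refine ⟨U, range fun y : R × ℕ => e '' y.1 ∩ Ici y.2, Nat.cofinite_eq_atTop ▸ u1,
    forall_mem_range.2 fun y => u2 _ _, fun A a => ?_,
      mk_range_le.trans_lt (by simpa using mul_lt_of_lt d1.le r1 d1)⟩
  obtain ⟨b, c, d | d⟩ := r3 (e ⁻¹' A)
  · obtain ⟨n, f⟩ := u3 ⟨b, c⟩ Aᶜ (by simpa using d)
    exact (Ultrafilter.compl_mem_iff_notMem.1 (mem_of_superset (u2 _ n) f) a).elim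
  · obtain ⟨n, f⟩ := u3 ⟨b, c⟩ A d
    exact ⟨_, ⟨(⟨b, c⟩, n), rfl⟩, f⟩

lemma rg (h : ¬ Sp) : dd ≤ dd.ord.cof := by
  obtain ⟨U, B, u1, b1, b2, b3⟩ := ub h
  rw [Nat.cofinite_eq_atTop] at u1
  have k : ∀ {ι : Type}, #ι < dd → ∀ f : ι → ℕ → ℕ, ∃ g : ℕ → ℕ, ∀ i, ∀ᶠ n in U, f i n < g n := by
    intro ι a f
    choose x x1 x2 using fun (b : B) n => U.nonempty_of_mem (inter_mem (b1 b b.2)
      (u1 (Ici_mem_atTop n)))
    obtain ⟨g, g1, g2⟩ := nd (ι := ι × B) (by simpa using mul_lt_of_lt d1.le a b3)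
      fun y n => f y.1 (x y.2 n)
    refine ⟨g, fun i => (U.em _).resolve_right fun c => ?_⟩
    obtain ⟨b, d, e⟩ := b2 _ c
    obtain ⟨n, j⟩ := (g2 (i, ⟨b, d⟩)).exists
    exact e (x1 ⟨b, d⟩ n) (j.trans_le (g1.monotone (x2 _ n)))
  obtain ⟨f, hf⟩ := d2
  obtain ⟨S, s1, s2⟩ := Order.exists_cof_eq dd.ord.ToType
  refine not_lt.1 fun c => ?_
  choose g hg using fun a : S => k (d3 a) fun b => f b.1
  obtain ⟨j, hj⟩ := k (s2.trans_lt (Ordinal.cof_toType _ ▸ c)) g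
  obtain ⟨b, d⟩ := hf j
  obtain ⟨a, e, i⟩ := s1 b
  obtain ⟨n, x, y, z⟩ := ((hj ⟨a, e⟩).and ((hg ⟨a, e⟩ ⟨b, i⟩).and (u1 d))).exists
  exact (x.trans_le z).asymm y

end Pool.Agent.H.MP_2712b7_lc
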